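import Pool.Agent.R927.OP3

set_option autoImplicit false

open Finset Polynomial Pool.Agent.W432.WB Pool.Agent.W432.HK Pool.Agent.Y227.SO
open Pool.Agent.TH571.PCV Pool.Agent.R340.SY Pool.Agent.R927

/-!
# Irreducible operators with few nonintegral exponents away from one point

Let `L` be an irreducible Fuchsian operator of order `r ≥ 2` with rational exponents, any number of
singular points and arbitrary accessory parameters. Let `x₀` be one of the singular points, and assume
that, after multiplication of the solutions by a product of rational powers of linear functions, at most
`r` of the exponents at all the points other than `x₀` (counted with multiplicity) are not integers. The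
generalized hypergeometric operators have this property, the Jordan-Pochhammer operators and, more
generally, the operators of Okubo type, which have finite singular points with `d j` nonintegral
exponents at the `j`-th one and `∑ j, d j = r`; their number of accessory parameters is not bounded.

We prove that, if the reductions of `L` have full bases of solutions for almost all primes (or only for
infinitely many primes in every residue class modulo a common denominator of the exponents), then the
fractional parts of all conjugates of the exponents at `x₀` strictly majorize those of the other ones
(for hypergeometric operators compare the interlacing condition of Beukers and Heckman), and the sum of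
`gam` over the exponents at `x₀` exceeds the sum over the other nonintegral exponents by more than
`1 / (14 r ^ 2)`, where `gam q` is the product of the numbers `-p` for the primes `p` dividing the
denominator of `q`, divided by the square of the denominator. Grothendieck's conjecture follows for all
the other operators of this kind, in particular if one of the following holds: **all the exponents which
are not integers have denominators at least `28 r ^ 3`**; or less than `r` of the exponents away from
`x₀` are not integers; or an exponent at `x₀` is an integer; or one exponent away from `x₀` is not an
integer and has a denominator at least as large as all exponents at `x₀`; or all the exponents are in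
`(1 / N) ℤ`, `N` a prime number. So for every `r` the conjecture holds for these operators unless one of
the exponents which are not integers has a small denominator.

Proof. If the reductions have full bases of solutions for infinitely many primes `p` with `a p = -1`
modulo the common denominator, for every `a`, then the conjugate exponents `a λ` are the weights of
stable parabolic bundles of parabolic degree zero (a starting result). The weights can be shifted by
real numbers with sum zero and infinity can be exchanged with a finite point (`R340/HK/Shift`,
`R340/MI/Swap`, of helper340). After a shift by half-integral multiples of `1 / N` the stable bundle
has trivial underlying bundle, and coordinate subspaces adapted to the flags give majorization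
(`R927/OK1` - `OK6`); one applies this to `a` and `-a`. For a suitable conjugate the largest fractional
part is at a point other than `x₀`. For the gap (`R927/GP1`, `GP2`) consider the difference `β` of the
`m`-th power sums of the roots of unity which correspond to the exponents at `x₀` and to the other
nonintegral ones. By majorization `β` is at most `2 π² m²` times the difference `S` of the sums of the
squares of the fractional parts; the mean of the absolute values of the conjugates of the algebraic
integer `β` is at least one if `β ≠ 0`, which is the case for some `m < 2 r`; the mean of `S` is one
sixth of the difference of the sums of `gam`.
-/

namespace Pool.Agent.Results.MP_aa40d3_nt.FewExponents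

/-- Let `L = ∑ b k ∂ ^ k` be an operator of order `r ≥ 2` with integral polynomial coefficients,
Fuchsian, with finite singular points among the distinct algebraic numbers `α j`, `j = 1, …, m`, with
the rational exponents `lam j l` at `α j` and `-phi l` at infinity (`FuchsianWith`), and irreducible over
the algebraic numbers. Let `ε x` be rational numbers with sum zero (the exponents of an operator of
order one; the points `x` are the finite ones, `some j`, and infinity, `none`), and let `D x l` be the
differences of the exponents at `x` with `ε x`. Let `x₀` be one of the points and assume that at most `r`
of the numbers `D x l` with `x ≠ x₀` are not integers.

(1) Assume `Unbalanced x₀ D`: less than `r` of the `D x l` with `x ≠ x₀` are not integers; or some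
`D x₀ k` is an integer; or the sum of `1 - gam (D x l)` over all `x ≠ x₀` and `l` is at most the sum of
`1 - gam (D x₀ k)` over all `k` plus `1 / (14 r ^ 2)`; or all the `D x l` (for all `x` and `l`) which are
not integers have denominators at least `28 r ^ 3`; or some `D x l` with `x ≠ x₀` is not an integer and
has a denominator at least as large as all the `D x₀ k`; or all the `D x l` are in `(1 / N) ℤ` for some
prime number `N`. Then for every common denominator `N` of the exponents there is
an `a` prime to `N` such that for all large primes `p` with `a p = -1` modulo `N` the reduction of `L`
modulo `p` does not have a full basis of rational solutions. In particular the open implication of the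
conjecture holds for `L`.

(2) In any case the conclusion of (1) holds, or `MajorAll x₀ D`: exactly `r` of the numbers `D x l` with
`x ≠ x₀` are not integers, no `D x₀ k` is an integer, and for every common denominator `q` of all the
`D x l` and every `u` prime to `q` the fractional parts of the numbers `-u D x₀ k` strictly majorize
those of the `u D x l`, `x ≠ x₀`. -/
theorem result {m r : ℕ} (hm : 1 ≤ m) (hr : 2 ≤ r) (b : Fin (r + 1) → ℤ[X])
    (α : Fin m → AlgebraicClosure ℚ) (lam : Fin m → Fin r → ℚ) (phi : Fin r → ℚ)
    (hF : FuchsianWith b α lam phi) (hirr : ¬ Reducible b) (x₀ : Option (Fin m))
    (ε : Option (Fin m) → ℚ) (D : Option (Fin m) → Fin r → ℚ) (hD : IsTwist lam phi ε D)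
    (hfew : nonintAway x₀ D ≤ r) :
    (Unbalanced x₀ D →
      (∀ N, CommonDen lam phi N → Pool.Agent.W432.HK.BadClass b N) ∧ (Cond b → FullAlg b)) ∧
    (((∀ N, CommonDen lam phi N → Pool.Agent.W432.HK.BadClass b N) ∧ (Cond b → FullAlg b)) ∨
      MajorAll x₀ D) := by
  have hall : (∀ N, CommonDen lam phi N → Pool.Agent.W432.HK.BadClass b N) →
      (∀ N, CommonDen lam phi N → Pool.Agent.W432.HK.BadClass b N) ∧ (Cond b → FullAlg b) := by
    refine fun key => ⟨key, fun hc => ?_⟩
    obtain ⟨N, hN⟩ := exists_commonDen lam phi
    obtain ⟨a, ha, P₀, hP₀⟩ := key N hN
    obtain ⟨p, hp1, hp2, hp3, hp4⟩ := cond_infinite hc hN.1 ha P₀
    exact absurd hp4 (hP₀ p hp1 hp2 hp3)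
  obtain ⟨h1, h2⟩ := op_cases hm hr hF hirr x₀ hD hfew
  exact ⟨fun h => hall (h2 h), h1.imp hall id⟩

end Pool.Agent.Results.MP_aa40d3_nt.FewExponents
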