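import Pool.Agent.R340.PC.Four

set_option autoImplicit false

open Polynomial Pool.Agent.W432.WB Pool.Agent.W432.HK Pool.Agent.Y227.SO Pool.Agent.R340.PC

namespace Pool.Agent.Results.MP_aa40d3_nt.FourDifferences

/-- Irreducible operators of order two with at most four points with non-integral differences of
exponents, with resonant exponents and arbitrary denominators of the exponents themselves allowed.

Let `L = ∑ b k ∂ ^ k` be an operator of order two with integral polynomial coefficients, Fuchsian,
with finite singular points among the distinct algebraic numbers `α j`, `j = 1, …, m`, `m ≥ 1`, with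
the rational exponents `lam j l` at `α j` and the rational degrees `phi l` of the solutions at
infinity, and irreducible over the algebraic numbers. Let `q` be an odd prime number or an odd
number without prime factors below `47`, such that `q` times the difference of the two exponents at
each of the `m + 1` points `x` is an integer `D x`, and assume that at most four of these integers
are not divisible by `q`. If `q` is a prime below `19`, assume that `∑ D x + m - 1` is even (this is
automatic when the exponents themselves have the common denominator `q`). Then one of the following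
holds.

(1) `∑ D x + m - 1` is even, exactly four of the `D x` are not divisible by `q`, and these form
two pairs of integers congruent modulo `q` up to the sign.

(2) For every common denominator `N` of all the exponents there is an `a` prime to `N` such that for
all large primes `p` with `a p = -1` modulo `N` the reduction of `L` modulo `p` does not have a full
basis of rational solutions. In particular the open implication of the conjecture holds for `L`. -/
theorem result {m : ℕ} (hm : 1 ≤ m) (b : Fin 3 → ℤ[X]) (α : Fin m → AlgebraicClosure ℚ)
    (lam : Fin m → Fin 2 → ℚ) (phi : Fin 2 → ℚ) (hF : FuchsianWith b α lam phi)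
    (hirr : ¬ Reducible b) (q : ℕ) (hq : Odd q)
    (hqq : q.Prime ∨ ∀ p : ℕ, p.Prime → p ∣ q → 47 ≤ p) (D : Option (Fin m) → ℤ)
    (hD : ∀ x, (q : ℚ) * expDiff lam phi x = D x)
    (h4 : (Finset.univ.filter fun x => ¬ (q : ℤ) ∣ D x).card ≤ 4)
    (h19 : q.Prime → q < 19 → Even (∑ x, D x + m - 1)) :
    (TwoPairs q D ∧ Even (∑ x, D x + m - 1)) ∨
      ((∀ N, CommonDen lam phi N → BadClass b N) ∧ (Cond b → FullAlg b)) := by
  by_cases h : ∀ N, CommonDen lam phi N → BadClass b N
  · refine Or.inr ⟨h, fun hc => ?_⟩
    obtain ⟨N, hN⟩ := exists_commonDen lam phi
    obtain ⟨a, ha, P₀, hP₀⟩ := h N hN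
    obtain ⟨p, hp1, hp2, hp3, hp4⟩ := cond_infinite hc hN.1 ha P₀
    exact absurd hp4 (hP₀ p hp1 hp2 hp3)
  · left
    push Not at h
    obtain ⟨N, hN, hbad⟩ := h
    refine four_main hN hq hqq (fuchs_two hm hF) hD h4 h19 fun a ha => ?_
    by_contra hst
    exact hbad ⟨a, ha, bad_class (by omega) (by norm_num) hF hN a (Or.inr ⟨hirr, hst⟩)⟩

end Pool.Agent.Results.MP_aa40d3_nt.FourDifferences
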