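import Pool.Agent.R340.SG.OpLine

set_option autoImplicit false

open Finset Polynomial Pool.Agent.W432.WB Pool.Agent.W432.HK Pool.Agent.Y227.SO
open Pool.Agent.R340.SY Pool.Agent.R340.MI Pool.Agent.R340.SG

/-!
# Irreducible operators of any order: the inequalities for line subbundles

Let `L` be an irreducible Fuchsian operator of order `n ≥ 2` with rational exponents, any number of
singular points and arbitrary accessory parameters, whose reductions have full bases of solutions for
almost all primes (or only for infinitely many primes in every residue class modulo a common denominator
of the exponents). Let `δ` be a rational number, let `ε x` be rational numbers with integral sum and let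
`L x ≥ 0` be integers whose sum is the denominator of `δ`, for the singular points `x`. It is shown that
at least `n` of all the exponents are not congruent modulo `ℤ` to one of
`ε x, ε x + δ, …, ε x + L x δ`. So Grothendieck's conjecture holds for all the operators for which this
fails for one choice of `δ`, `ε`, `L`. For example it holds for all the operators with three points with
nonintegral exponents (and any number of further points with integral exponents) whose exponents have, up
to a twist, a prime denominator, if the multiplicities of two different exponents at one point and of an
exponent at another point have a sum greater than `n`; in particular if there are exactly two different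
exponents modulo `ℤ` at one of the three points.

Proof. If the reductions have full bases of solutions for infinitely many primes `p` with `a p = -1`
modulo the common denominator, for every `a`, then the conjugate exponents `a λ` are the weights of
stable parabolic bundles of parabolic degree zero (a starting result). There are no nonzero maps from
parabolic line bundles of degree zero, hence for all numbers `β x` with integral sum the sum of the
fractional parts of all the `a λ - β x` is at least `n`. For `M ≤ 2 n` nonintegral differences these are
equalities, and the nonvanishing of `L(1, χ)` for odd characters gives the symmetry of the differences. In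
general add the inequalities for `a`, `β` and for `-a`, `-β - γ`, where `γ x ≥ 0` and the sum of the `γ x`
is one: at least `n` exponents lie outside arcs of the lengths `γ x`, of total length one, which begin at
the points `β x`. Now choose `a` with `a δ = 1 / d` modulo `ℤ` and arcs of the lengths `L x / d`.
-/

namespace Pool.Agent.Results.MP_aa40d3_nt.LineSubbundles

/-- Let `L = ∑ b k ∂ ^ k` be an operator of order `n ≥ 2` with integral polynomial coefficients,
Fuchsian, with finite singular points among the distinct algebraic numbers `α j`, `j = 1, …, m`, with
the rational exponents `e x l = expo lam phi x l` at the `m + 1` points `x` (the finite points `some j` and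
infinity, `none`), and irreducible over the algebraic numbers. We consider the following assertion.

(*) For every common denominator `N` of the exponents there is an `a` prime to `N` such that for all
large primes `p` with `a p = -1` modulo `N` the reduction of `L` modulo `p` does not have a full basis
of rational solutions; in particular the open implication of the conjecture holds for `L`.

(1) Let `ε x` be rational numbers with an integral sum (the exponents of an operator of order one) and
let `D x l = e x l - ε x`. Then (*) holds or `LineAll D`: for every common denominator `q` of the `D x l`
and every `u` prime to `q` the sum of the fractional parts of all the `u D x l` is at least `n` and at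
most the number `M` of the nonintegral `D x l` minus `n`, and for all `γ x ≥ 0` with sum one at least `n`
of these fractional parts are greater than `γ x`; if `M ≤ 2 n` and `q` is prime or all prime factors of
`q` are greater than `4 n + 1`, then `M = 2 n` and for every rational `t` as many of the `D x l` are
congruent to `t` modulo `ℤ` as are congruent to `-t`.

(2) If there are a rational number `δ` and nonnegative integers `L x`, whose sum is the denominator of
`δ`, such that less than `n` of the `D x l` are not congruent modulo `ℤ` to one of `0, δ, 2 δ, …, L x δ`
(`outside D δ L < n`), then (*) holds.

(3) Let `P 0`, `P 1`, `P 2` be three of the points such that the exponents at all other points are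
integers, and let `e i l` be the exponents at `P i`. Let `p` be a prime number such that the differences
of exponents at the same point `P i` and the sums of exponents, one for each `P i`, are in `(1 / p) ℤ`. If
there are two exponents at one of these points, not congruent modulo `ℤ`, and an exponent at another of
these points, such that the numbers of the exponents (at the same point) congruent to them have a sum
greater than `n` (`LargeMult`), then (*) holds. -/
theorem result {m n : ℕ} (hm : 1 ≤ m) (hn : 2 ≤ n) (b : Fin (n + 1) → ℤ[X])
    (α : Fin m → AlgebraicClosure ℚ) (lam : Fin m → Fin n → ℚ) (phi : Fin n → ℚ)
    (hF : FuchsianWith b α lam phi) (hirr : ¬ Reducible b) :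
    (∀ (ε : Option (Fin m) → ℚ) (s : ℤ), ∑ x, ε x = s → ∀ D : Option (Fin m) → Fin n → ℚ,
      (∀ x l, D x l = expo lam phi x l - ε x) →
      (((∀ N, CommonDen lam phi N → BadClass b N) ∧ (Cond b → FullAlg b)) ∨ LineAll D) ∧
      ∀ (δ : ℚ) (L : Option (Fin m) → ℕ), ∑ x, L x = δ.den → outside D δ L < n →
        (∀ N, CommonDen lam phi N → BadClass b N) ∧ (Cond b → FullAlg b)) ∧
    (∀ P : Fin 3 → Option (Fin m), Function.Injective P →
      (∀ x, x ∉ Set.range P → ∀ l, (expo lam phi x l).den = 1) →
      ∀ e : Fin 3 → Fin n → ℚ, (∀ i l, e i l = expo lam phi (P i) l) →
      ∀ p : ℕ, p.Prime → (∀ i l l', ∃ w : ℤ, (p : ℚ) * (e i l - e i l') = w) →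
      (∀ κ : Fin 3 → Fin n, ∃ w : ℤ, (p : ℚ) * ∑ i, e i (κ i) = w) → LargeMult e →
        (∀ N, CommonDen lam phi N → BadClass b N) ∧ (Cond b → FullAlg b)) := by
  have hall : (∀ N, CommonDen lam phi N → BadClass b N) →
      (∀ N, CommonDen lam phi N → BadClass b N) ∧ (Cond b → FullAlg b) := by
    refine fun key => ⟨key, fun hc => ?_⟩
    obtain ⟨N, hN⟩ := exists_commonDen lam phi
    obtain ⟨a, ha, P₀, hP₀⟩ := key N hN
    obtain ⟨p, hp1, hp2, hp3, hp4⟩ := cond_infinite hc hN.1 ha P₀
    exact absurd hp4 (hP₀ p hp1 hp2 hp3)
  refine ⟨fun ε s hε D hD => ⟨?_, fun δ L hL hlt => ?_⟩, ?_⟩
  · by_cases h : ∀ N, CommonDen lam phi N → BadClass b N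
    · exact Or.inl (hall h)
    · right
      push Not at h
      obtain ⟨N, hN, hbad⟩ := h
      exact op_line hm hn hF hirr hN hbad hε hD
  · exact hall fun N hN => op_ap hm hn hF hirr hN hε hD δ L hL hlt
  · intro P hP hint e he p hp hd hs hlarge
    have he' : e = fun i => expo lam phi (P i) := by
      funext i l
      exact he i l
    rw [he'] at hd hs hlarge
    exact hall fun N hN => op_mult hm hn hF hirr hN hP hint hp hd hs hlarge

end Pool.Agent.Results.MP_aa40d3_nt.LineSubbundles
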