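import Pool.Agent.R340.MI.Op

set_option autoImplicit false

open Finset Polynomial Pool.Agent.W432.WB Pool.Agent.W432.HK Pool.Agent.Y227.SO
open Pool.Agent.TH571.PCV Pool.Agent.R340.SY Pool.Agent.R340.MI

/-!
# Irreducible operators of any order with three points with non-integral exponents

For a rational number `q` with denominator `n` let `gam q` be the product of the numbers `-p` for the
primes `p` dividing `n`, divided by `n ^ 2`. Let `L` be an irreducible Fuchsian operator of order `r`
with arbitrary rational exponents `λ_{x,l}` at three points `x`, with integral exponents at any number
of further singular points, and with arbitrary accessory parameters.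

Part (1). The open implication of the conjecture holds for `L`, the reductions having no full basis of
solutions for all large primes in some residue class, if for one of the three points `x` and one exponent
`k` at `x` (`y`, `z` are the other two points)

`r ^ 2 + ∑ gam (λ_{x,i} - λ_{x,j}) + 2 ∑ gam (λ_{x,k} + λ_{y,i} + λ_{z,j}) <
  ∑ gam (λ_{y,i} - λ_{y,j}) + ∑ gam (λ_{z,i} - λ_{z,j}) + 2 r ∑ gam (λ_{x,k} - λ_{x,l})`.

If the differences and the sums are in `(1 / p) ℤ` for a prime number `p` this is the condition on
multiplicities `r ^ 2 + P x + 2 R < P y + P z + 2 r c`, with the numbers `P` of ordered pairs of
congruent exponents at the points, the multiplicity `c` of the exponent `k` and the number `R` of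
resonances of `k`. The average over all `k` is the condition that the index of rigidity is positive
(and no resonances); for one `k` there are also cases of negative index, for example all types of order
four without resonances, except `(1111, 1111, 1111)`.

Part (2). The differences and the sums being in `(1 / p) ℤ` for a prime number `p`, and all choices of
one exponent for each of the three points having total multiplicity at least `r`, the conclusion holds,
with or without resonances, unless there are three classes of exponents of equal multiplicities at each
of the three points, the three sets of classes are translates of one another and there is a resonance.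

Proof. If the reductions have full bases of solutions for infinitely many primes in every class, the
conjugate exponents `a λ` are the weights of stable parabolic bundles of parabolic degree zero. Points
with integral weights can be removed by elementary modifications (`HK/Shift`), and infinity can be
exchanged with a finite point (`Swap`). So it is enough to consider bundles with three points, for
which (1) follows from the inequalities of Lidskii for all cuts of the circle `ℝ / ℤ` (`R927`, of
helper927), averaged over all conjugates, and (2) follows from (1), from the symmetry of the exponents
at a resonance (`Sym`) and from the inequalities for line subbundles.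
-/

namespace Pool.Agent.Results.MP_aa40d3_nt.MultiplicityInequality

/-- Irreducible operators of any order with three points with non-integral exponents.

Let `L = ∑ b k ∂ ^ k` be an operator of order `r` with integral polynomial coefficients, Fuchsian,
with finite singular points among the distinct algebraic numbers `α j`, `j = 1, …, m`, with the
rational exponents `expo lam phi x l` at the `m + 1` points `x` (the finite points `some j` and
infinity, `none`), and irreducible over the algebraic numbers. Let `P 0`, `P 1`, `P 2` be three of the
points such that the exponents at all other points are integers; let `e i l` be the exponents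
`expo lam phi (P i) l` at `P i`. The number of the other points and the accessory parameters are
arbitrary. Assume (1) or (2).

(1) Let `x`, `y`, `z` be `0`, `1`, `2` in any order and let `e x k` be an exponent at `P x`, and assume
`Violated e x y z k`: `r ^ 2 + ∑ gam (e x i - e x j) + 2 ∑ gam (e x k + e y i + e z j)` is less than
`∑ gam (e y i - e y j) + ∑ gam (e z i - e z j) + 2 r ∑ gam (e x k - e x l)`, or equal to it if there are
two exponents at `P x` which are different modulo `ℤ` from each other and from `e x k`. Or assume that
there is a prime number `p` such that the differences of exponents at the same point `P i` and the sums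
`e x k + e y l + e z l'` are in `(1 / p) ℤ` and
`r ^ 2 + pairs e x + 2 sums e x y z k < pairs e y + pairs e z + 2 r mult e x k` (`≤` if there are two
exponents at `P x` which are different modulo `ℤ` from each other and from `e x k`), where `pairs e x`
is the number of ordered pairs of exponents at `P x` which are congruent modulo `ℤ`, `sums e x y z k`
is the number of the integers among the sums `e x k + e y l + e z l'` and `mult e x k` is the number of
the exponents at `P x` congruent to `e x k`.

(2) Let `r ≥ 2`, and let `p` be a prime number such that the differences of exponents at the same point
`P i` and the sums of exponents, one for each `P i`, are in `(1 / p) ℤ`. Assume that every choice `κ` of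
one exponent for each `P i` has total multiplicity at least `r`. Assume that `e` is not exceptional:
it is not true that the exponents at each `P i` are in three classes modulo `ℤ` with `r / 3` elements,
that the three sets of classes are translates of one another and that some sum of exponents, one for
each `P i`, is an integer.

Then for every common denominator `N` of the exponents there is an `a` prime to `N` such that for all
large primes `p` with `a p = -1` modulo `N` the reduction of `L` modulo `p` does not have a full basis
of rational solutions. In particular the open implication of the conjecture holds for `L`. -/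
theorem result {m r : ℕ} (b : Fin (r + 1) → ℤ[X]) (α : Fin m → AlgebraicClosure ℚ)
    (lam : Fin m → Fin r → ℚ) (phi : Fin r → ℚ) (hF : FuchsianWith b α lam phi)
    (hirr : ¬ Reducible b) (P : Fin 3 → Option (Fin m)) (hP : Function.Injective P)
    (hint : ∀ x, x ∉ Set.range P → ∀ l, (expo lam phi x l).den = 1) (e : Fin 3 → Fin r → ℚ)
    (he : ∀ i l, e i l = expo lam phi (P i) l)
    (h : (∃ x y z : Fin 3, x ≠ y ∧ y ≠ z ∧ x ≠ z ∧ ∃ k : Fin r, Violated e x y z k ∨
        ∃ p : ℕ, p.Prime ∧ (∀ i l l', ∃ m : ℤ, (p : ℚ) * (e i l - e i l') = m) ∧
          (∀ l l', ∃ m : ℤ, (p : ℚ) * (e x k + e y l + e z l') = m) ∧
          (r ^ 2 + pairs e x + 2 * sums e x y z k < pairs e y + pairs e z + 2 * r * mult e x k ∨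
            r ^ 2 + pairs e x + 2 * sums e x y z k ≤ pairs e y + pairs e z + 2 * r * mult e x k ∧
              Three e x k)) ∨
      (2 ≤ r ∧ ¬ Exceptional e ∧
        ∃ p : ℕ, p.Prime ∧ (∀ i l l', ∃ m : ℤ, (p : ℚ) * (e i l - e i l') = m) ∧
          (∀ κ : Fin 3 → Fin r, ∃ m : ℤ, (p : ℚ) * ∑ i, e i (κ i) = m) ∧
          ∀ κ : Fin 3 → Fin r, r ≤ ∑ i, mult e i (κ i))) :
    (∀ N, CommonDen lam phi N → BadClass b N) ∧ (Cond b → FullAlg b) := by
  have he' : e = fun i => expo lam phi (P i) := by
    funext i l
    exact he i l
  have key : ∀ N, CommonDen lam phi N → BadClass b N := by
    intro N hN
    rcases h with ⟨x, y, z, hxy, hyz, hxz, k, h⟩ | ⟨hr, hex, p, hp, h1, h2, h3⟩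
    · have hv : Violated e x y z k := by
        rcases h with h | ⟨p, hp, e1, e2, e3⟩
        · exact h
        · exact violated_prime hp e x y z k e1 e2 e3
      rw [he'] at hv
      exact op_main hF hirr hN ⟨P, hP⟩ hint hxy hyz hxz k hv
    · rw [he'] at hex h1 h2 h3
      exact op_three hr hF hirr hN ⟨P, hP⟩ hint hp h1 h2 h3 hex
  refine ⟨key, fun hc => ?_⟩
  obtain ⟨N, hN⟩ := exists_commonDen lam phi
  obtain ⟨a, ha, P₀, hP₀⟩ := key N hN
  obtain ⟨p, hp1, hp2, hp3, hp4⟩ := cond_infinite hc hN.1 ha P₀
  exact absurd hp4 (hP₀ p hp1 hp2 hp3)

end Pool.Agent.Results.MP_aa40d3_nt.MultiplicityInequality
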